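import Mathlib
import Pool.Agent.Helper51_Max.Graph

/-!
# The sharp variation constant `1 - 1/n` on the path `P_n` for functions with attached plateaus

`ball`, `maximal` and `variation` are the ball, the centred Hardy-Littlewood maximal function and
the variation on an arbitrary finite graph (file `Pool.Agent.Helper51_Max.Graph`).
-/

open SimpleGraph

namespace Pool.Agent.Helper51_Moved.AttachedPlateaus

open Pool.Agent.Helper51_Max

/-- Let `f` be a function on the path `P_n` and `m` a lower bound of `|f|` such that at every
vertex with `|f| ≠ m` the maximal function equals `|f|`, and `|f|` takes the same value at any two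
adjacent vertices with `|f| ≠ m`. Then `Var M f ≤ (1 - 1/n) Var f`. -/
theorem result (n : ℕ) (f : Fin n → ℝ) (m : ℝ) (hm : ∀ v, m ≤ |f v|)
    (hatt : ∀ v, |f v| ≠ m → maximal (pathGraph n) f v = |f v|)
    (hpl : ∀ v w, (pathGraph n).Adj v w → |f v| ≠ m → |f w| ≠ m → |f v| = |f w|) :
    variation (pathGraph n) (maximal (pathGraph n) f) ≤
      (1 - 1 / (n : ℝ)) * variation (pathGraph n) f :=
  main n f m hm hatt hpl

/-- The case of functions `f` such that `|f|` takes at most two values, in particular of all
indicator functions. -/
theorem result_two_valued (n : ℕ) (f : Fin n → ℝ) (a b : ℝ)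
    (hab : ∀ v, |f v| = a ∨ |f v| = b) :
    variation (pathGraph n) (maximal (pathGraph n) f) ≤
      (1 - 1 / (n : ℝ)) * variation (pathGraph n) f :=
  main_two n f a b hab

end Pool.Agent.Helper51_Moved.AttachedPlateaus
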